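import Mathlib
import Pool.Agent.KS7_39.Sw.Switch

set_option autoImplicit false

namespace Pool.Agent.Results.MP_10a7b3_an.PrescribedJump

open Metric Set Filter Topology MeasureTheory

/-- `ℂ²` with its Euclidean (Hermitian) structure. -/
abbrev C2 := EuclideanSpace ℂ (Fin 2)

/-- The open Euclidean unit ball of `ℂ²`. -/
abbrev B2 : Set C2 := ball 0 1

/-- The class `𝓜`: holomorphic `h` on the ball with `h 0 = 0`, `Dh(0) = id` and
`Re ⟨h z, z⟩ > 0` for `z ≠ 0`. (Maps are total functions; only their values on the ball matter.) -/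
def ClassM : Set (C2 → C2) :=
  {h | DifferentiableOn ℂ h B2 ∧ h 0 = 0 ∧ fderiv ℂ h 0 = ContinuousLinearMap.id ℂ C2 ∧
    ∀ z ∈ B2, z ≠ 0 → 0 < (inner ℂ z (h z) : ℂ).re}

/-- The class `-𝓜`. -/
def ClassNegM : Set (C2 → C2) := {g | (fun z => -g z) ∈ ClassM}

/-- A family of maps is normal on the unit ball if every sequence in it has a subsequence which
converges locally uniformly on the ball. -/
def IsNormalFamily (𝓕 : Set (C2 → C2)) : Prop :=
  ∀ g : ℕ → C2 → C2, (∀ k, g k ∈ 𝓕) → ∃ φ : ℕ → ℕ, StrictMono φ ∧ ∃ G : C2 → C2,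
    TendstoLocallyUniformlyOn (fun k => g (φ k)) G atTop B2

/-- A normal Loewner chain `(F t)`, `t ≥ 0`. -/
structure IsNormalLoewnerChain (F : ℝ → C2 → C2) : Prop where
  holo : ∀ t, 0 ≤ t → DifferentiableOn ℂ (F t) B2
  inj : ∀ t, 0 ≤ t → InjOn (F t) B2
  zero : ∀ t, 0 ≤ t → F t 0 = 0
  deriv : ∀ t, 0 ≤ t →
    fderiv ℂ (F t) 0 = ((Real.exp t : ℝ) : ℂ) • ContinuousLinearMap.id ℂ C2
  sub : ∀ s t, 0 ≤ s → s ≤ t → F s '' B2 ⊆ F t '' B2
  normal : IsNormalFamily {g | ∃ t : ℝ, 0 ≤ t ∧ g = fun z => ((Real.exp (-t) : ℝ) : ℂ) • F t z}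

/-- The class `S⁰(𝔹²)`. -/
def ClassS0 : Set (C2 → C2) :=
  {f | DifferentiableOn ℂ f B2 ∧ InjOn f B2 ∧ f 0 = 0 ∧
    fderiv ℂ f 0 = ContinuousLinearMap.id ℂ C2 ∧
    ∃ F : ℝ → C2 → C2, IsNormalLoewnerChain F ∧ ∀ z ∈ B2, F 0 z = f z}

/-- A continuous linear functional on `Hol(𝔹², ℂ²)` (continuous for locally uniform
convergence, i.e. bounded by a multiple of the supremum over some compact subset of the ball). -/
structure IsContLinFunctional (L : (C2 → C2) → ℂ) : Prop where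
  linear : ∀ g₁ g₂ : C2 → C2, DifferentiableOn ℂ g₁ B2 → DifferentiableOn ℂ g₂ B2 →
    ∀ a b : ℂ, L (a • g₁ + b • g₂) = a * L g₁ + b * L g₂
  bounded : ∃ K : Set C2, K ⊆ B2 ∧ IsCompact K ∧ ∃ C : ℝ, ∀ g : C2 → C2,
    DifferentiableOn ℂ g B2 → ∀ M : ℝ, (∀ z ∈ K, ‖g z‖ ≤ M) → ‖L g‖ ≤ C * M

/-- `f` is a support point of the family `S`. -/
def IsSupportPoint (f : C2 → C2) (S : Set (C2 → C2)) : Prop :=
  f ∈ S ∧ ∃ L : (C2 → C2) → ℂ, IsContLinFunctional L ∧ (∃ g₁ ∈ S, ∃ g₂ ∈ S, L g₁ ≠ L g₂) ∧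
    ∀ g ∈ S, (L g).re ≤ (L f).re

/-- A Herglotz vector field associated with `𝓜` (`G t z` is the value at the point `z` and the
time `t`). -/
structure IsHerglotzField (G : ℝ → C2 → C2) : Prop where
  meas : ∀ z ∈ B2, AEStronglyMeasurable (fun t => G t z) (volume.restrict (Ici 0))
  mem : ∀ᵐ t : ℝ, 0 ≤ t → G t ∈ ClassNegM

/-- `G` generates the chain `F`: `∂F_t(z)/∂t = -d(F_t)_z G(z,t)` for every `z` and a.e. `t ≥ 0`. -/
def Generates (G : ℝ → C2 → C2) (F : ℝ → C2 → C2) : Prop :=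
  ∀ z ∈ B2, ∀ᵐ t : ℝ, 0 ≤ t → HasDerivAt (fun s => F s z) (-(fderiv ℂ (F t) z (G t z))) t

/-- The coefficient of `z₁z₂` in the second component of `h`, i.e. `∂²h₂/∂z₁∂z₂ (0)`. -/
noncomputable def mixedCoeff (h : C2 → C2) : ℂ :=
  deriv (fun ζ : ℂ => fderiv ℂ (fun z : C2 => h z 1) !₂[0, ζ] !₂[1, 0]) 0

open Pool.Agent.KS7_39.H540 Pool.Agent.KS7_39.LJ

theorem cara_iff {h : C2 → C2} : h ∈ ClassM ↔ Cara h :=
  ⟨fun ⟨a, b, c, d⟩ => ⟨a, b, c, d⟩, fun ⟨a, b, c, d⟩ => ⟨a, b, c, d⟩⟩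

/-- Normal chains are locally bounded after rescaling. -/
theorem lc_of_normal {F : ℝ → C2 → C2} (hF : IsNormalLoewnerChain F) : LC F := by
  refine ⟨hF.holo, hF.inj, hF.zero, hF.deriv, hF.sub, fun r hr => ?_⟩
  by_contra hcon
  push Not at hcon
  have hex : ∀ n : ℕ, ∃ t : ℝ, 0 ≤ t ∧ ∃ z : C2, ‖z‖ ≤ r ∧ (n : ℝ) * Real.exp t < ‖F t z‖ := by
    intro n
    obtain ⟨t, ht, z, hz, h⟩ := hcon n
    exact ⟨t, ht, z, hz, h⟩
  choose t ht z hz htz using hex
  obtain ⟨φ, hφ, G, hG⟩ := hF.normal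
    (fun n z => ((Real.exp (-(t n)) : ℝ) : ℂ) • F (t n) z) (fun n => ⟨t n, ht n, rfl⟩)
  have hcl : closedBall (0 : C2) r ⊆ ball 0 1 := closedBall_subset_ball hr
  have hcont : ContinuousOn G (ball 0 1) := by
    apply hG.continuousOn
    apply Frequently.of_forall
    intro n
    exact ((hF.holo _ (ht (φ n))).continuousOn).const_smul ((Real.exp (-(t (φ n))) : ℝ) : ℂ)
  obtain ⟨C, hC⟩ := (isCompact_closedBall (0 : C2) r).exists_bound_of_continuousOn
    (hcont.mono hcl)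
  have hun : TendstoUniformlyOn (fun n z => ((Real.exp (-(t (φ n))) : ℝ) : ℂ) • F (t (φ n)) z) G
      atTop (closedBall (0 : C2) r) :=
    (tendstoLocallyUniformlyOn_iff_forall_isCompact isOpen_ball).1 hG _ hcl
      (isCompact_closedBall _ _)
  rw [Metric.tendstoUniformlyOn_iff] at hun
  obtain ⟨n, hn1, hn2⟩ := ((hun 1 one_pos).and (eventually_ge_atTop ⌈C + 1⌉₊)).exists
  have h1 := hn1 (z (φ n)) (by simpa using hz (φ n))
  have h2 := hC (z (φ n)) (by simpa using hz (φ n))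
  have h3 : ‖((Real.exp (-(t (φ n))) : ℝ) : ℂ) • F (t (φ n)) (z (φ n))‖ < C + 1 := by
    rw [dist_comm, dist_eq_norm] at h1
    calc _ = ‖(((Real.exp (-(t (φ n))) : ℝ) : ℂ) • F (t (φ n)) (z (φ n)) - G (z (φ n))) +
          G (z (φ n))‖ := by rw [sub_add_cancel]
      _ ≤ _ := norm_add_le _ _
      _ < C + 1 := by linarith
  rw [norm_smul, Complex.norm_real, Real.norm_of_nonneg (Real.exp_pos _).le] at h3
  have h4 := htz (φ n)
  have h5 : Real.exp (-(t (φ n))) * Real.exp (t (φ n)) = 1 := by rw [← Real.exp_add]; simp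
  have h6 : ((φ n : ℕ) : ℝ) < Real.exp (-(t (φ n))) * ‖F (t (φ n)) (z (φ n))‖ := by
    calc ((φ n : ℕ) : ℝ) = Real.exp (-(t (φ n))) * (((φ n : ℕ) : ℝ) * Real.exp (t (φ n))) := by
          linear_combination (-((φ n : ℕ) : ℝ)) * h5
      _ < _ := by
          have := Real.exp_pos (-(t (φ n)))
          gcongr
  have h7 : C + 1 ≤ ((φ n : ℕ) : ℝ) := by
    calc C + 1 ≤ (⌈C + 1⌉₊ : ℝ) := Nat.le_ceil _
      _ ≤ (n : ℝ) := by exact_mod_cast hn2
      _ ≤ ((φ n : ℕ) : ℝ) := by exact_mod_cast hφ.id_le n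
  linarith

theorem normal_of_lc {F : ℝ → C2 → C2} (hF : LC F) : IsNormalLoewnerChain F := by
  refine ⟨hF.holo, hF.inj, hF.zero, hF.deriv, hF.sub, ?_⟩
  intro g hg
  choose t ht hgt using hg
  apply montel_gen
  · intro n
    rw [hgt n]
    exact (hF.holo _ (ht n)).const_smul ((Real.exp (-(t n)) : ℝ) : ℂ)
  · intro r hr
    obtain ⟨M, hM⟩ := hF.bdd r hr
    refine ⟨|M|, abs_nonneg _, fun n z hz => ?_⟩
    rw [hgt n]
    simp only
    rw [norm_smul, Complex.norm_real, Real.norm_of_nonneg (Real.exp_pos _).le]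
    have h5 : Real.exp (-(t n)) * Real.exp (t n) = 1 := by rw [← Real.exp_add]; simp
    calc Real.exp (-(t n)) * ‖F (t n) z‖ ≤ Real.exp (-(t n)) * (M * Real.exp (t n)) := by
          have := hM _ (ht n) z hz
          gcongr
      _ = M * (Real.exp (-(t n)) * Real.exp (t n)) := by ring
      _ = M := by rw [h5, mul_one]
      _ ≤ |M| := le_abs_self M

/-- The level one functional `f ↦ [z₂²] f₁`. -/
noncomputable def L1 (f : C2 → C2) : ℂ := (qf f (pt 0 1)) 0

theorem L1_functional : IsContLinFunctional L1 := by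
  have hsl : ∀ g : C2 → C2, DifferentiableOn ℂ g B2 →
      ContDiffAt ℂ 2 (fun ζ : ℂ => g (ζ • pt 0 1)) 0 := fun g hg =>
    contDiffAt_of_ball one_pos (slice_diff hg norm_pt_zero_one.le) 2
  refine ⟨?_, closedBall 0 (1 / 2), closedBall_subset_ball (by norm_num),
    isCompact_closedBall _ _, 4, ?_⟩
  · intro g₁ g₂ h₁ h₂ a b
    have d1 := hsl g₁ h₁
    have d2 := hsl g₂ h₂
    have e1 : tc 2 (fun ζ : ℂ => a • g₁ (ζ • pt 0 1) + b • g₂ (ζ • pt 0 1)) =
        a • tc 2 (fun ζ : ℂ => g₁ (ζ • pt 0 1)) + b • tc 2 (fun ζ : ℂ => g₂ (ζ • pt 0 1)) := by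
      have c1 := tc_clm (a • ContinuousLinearMap.id ℂ C2) 2 d1
      have c2 := tc_clm (b • ContinuousLinearMap.id ℂ C2) 2 d2
      simp only [smul_apply, ContinuousLinearMap.id_apply] at c1 c2
      rw [← c1, ← c2]
      exact tc_add 2 (d1.const_smul a) (d2.const_smul b)
    show (tc 2 (fun ζ : ℂ => (a • g₁ + b • g₂) (ζ • pt 0 1))) 0 = _
    have e2 : (fun ζ : ℂ => (a • g₁ + b • g₂) (ζ • pt 0 1)) =
        fun ζ : ℂ => a • g₁ (ζ • pt 0 1) + b • g₂ (ζ • pt 0 1) := rfl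
    rw [e2, e1]
    simp [L1, qf]
  · intro g hg M hM
    have h1 := norm_tcn_le hg norm_pt_zero_one.le (C := M) (fun z hz => hM z (by simpa using hz)) 2
    have h2 : ‖L1 g‖ ≤ ‖qf g (pt 0 1)‖ := norm_apply_le_two _ _
    calc _ ≤ _ := h2
      _ ≤ _ := h1
      _ = 4 * M := by ring

/-- The coefficients of maps that agree on the ball agree. -/
theorem qf_congr {f g : C2 → C2} (h : ∀ z ∈ B2, f z = g z) {u : C2} (hu : ‖u‖ ≤ 1) :
    qf f u = qf g u := by
  apply tc_congr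
  filter_upwards [ball_mem_nhds (0 : ℂ) one_pos] with ζ hζ
  exact h _ (slice_mem hu hζ)

theorem tc3_congr {f g : C2 → C2} (h : ∀ z ∈ B2, f z = g z) {u : C2} (hu : ‖u‖ ≤ 1) :
    tc 3 (fun ζ : ℂ => f (ζ • u)) = tc 3 (fun ζ : ℂ => g (ζ • u)) := by
  apply tc_congr
  filter_upwards [ball_mem_nhds (0 : ℂ) one_pos] with ζ hζ
  exact h _ (slice_mem hu hζ)

theorem mf_congr {f g : C2 → C2} (hf : DifferentiableOn ℂ f B2) (hg : DifferentiableOn ℂ g B2)
    (h : ∀ z ∈ B2, f z = g z) : mf f = mf g := by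
  rw [mf_eq hf, mf_eq hg, qf_congr h norm_pt_half, qf_congr h norm_pt_one_zero.le,
    qf_congr h norm_pt_zero_one.le]

/-- The trivial chain `e^t z`. -/
theorem trivial_chain : LC (fun t (z : C2) => ((Real.exp t : ℝ) : ℂ) • z) := by
  have hne : ∀ t : ℝ, ((Real.exp t : ℝ) : ℂ) ≠ 0 := fun t => by
    exact_mod_cast (Real.exp_pos t).ne'
  refine ⟨?_, ?_, ?_, ?_, ?_, ?_⟩
  · intro t _
    exact differentiableOn_id.const_smul ((Real.exp t : ℝ) : ℂ)
  · intro t _ z _ w _ h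
    exact smul_right_injective _ (hne t) h
  · intro t _
    simp
  · intro t _
    exact ((hasFDerivAt_id (𝕜 := ℂ) (0 : C2)).const_smul ((Real.exp t : ℝ) : ℂ)).fderiv
  · intro s t _ hst
    rintro _ ⟨z, hz, rfl⟩
    refine ⟨((Real.exp (s - t) : ℝ) : ℂ) • z, ?_, ?_⟩
    · rw [mem_ball_zero_iff] at *
      rw [norm_smul, Complex.norm_real, Real.norm_of_nonneg (Real.exp_pos _).le]
      have h1 : Real.exp (s - t) ≤ 1 := by rw [Real.exp_le_one_iff]; linarith
      calc Real.exp (s - t) * ‖z‖ ≤ 1 * ‖z‖ := by gcongr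
        _ < 1 := by linarith
    · simp only
      rw [smul_smul, ← Complex.ofReal_mul, ← Real.exp_add]
      congr 3
      ring
  · intro r hr
    refine ⟨1, fun t _ z hz => ?_⟩
    rw [norm_smul, Complex.norm_real, Real.norm_of_nonneg (Real.exp_pos _).le]
    have h1 := Real.exp_pos t
    nlinarith

theorem L1_id : L1 (fun z : C2 => z) = 0 := by
  have h1 : (fun ζ : ℂ => (fun z : C2 => z) (ζ • pt 0 1)) = fun ζ : ℂ => ζ ^ 1 • pt 0 1 := by
    ext1 ζ
    simp
  rw [L1, qf, h1, tc_pow_smul, if_neg (by norm_num)]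
  rfl

theorem mixedCoeff_eq (h : C2 → C2) : mixedCoeff h = yc h := by
  rw [yc, bco, tc, mixedCoeff]
  simp only [Nat.factorial_one, Nat.cast_one, inv_one, one_smul, iteratedDeriv_one]
  rfl

theorem mixedCoeff_neg (h : C2 → C2) : mixedCoeff (fun z => -h z) = -mixedCoeff h := by
  rw [mixedCoeff, mixedCoeff, ← deriv.fun_neg]
  congr 1
  ext1 ζ
  have : (fun z : C2 => (-h z) 1) = fun z : C2 => -(h z 1) := by
    ext1 z
    simp
  rw [this, fderiv_fun_neg]
  rfl

/-- The values of `L1` on `-𝓜`. -/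
theorem L1_neg_re_le {g : C2 → C2} (hg : g ∈ ClassNegM) : (L1 g).re ≤ 3 * Real.sqrt 3 / 2 := by
  have hc : Cara (fun z => -g z) := cara_iff.1 hg
  have h1 := q_bound hc
  rw [aco_two_eq hc.diff] at h1
  have hd : DifferentiableOn ℂ g B2 := by
    have := hc.diff.neg
    refine this.congr fun z _ => ?_
    simp
  have h2 : L1 (fun z => -g z) = -L1 g := by
    have e : (fun z => -g z) = (-1 : ℂ) • g + (0 : ℂ) • g := by
      ext1 z
      simp
    rw [e, L1_functional.linear g g hd hd]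
    ring
  have h3 : (qf (fun z => -g z) (pt 0 1)) 0 = -L1 g := h2
  rw [h3, norm_neg] at h1
  exact (Complex.re_le_norm _).trans h1

theorem face_neg_support {h : C2 → C2} (hh : Face h) :
    IsSupportPoint (fun z => -h z) ClassNegM := by
  have hmem : (fun z => -h z) ∈ ClassNegM := by
    show (fun z => - -h z) ∈ ClassM
    simp only [neg_neg]
    exact cara_iff.2 hh.cara
  have hid : (fun z : C2 => -z) ∈ ClassNegM := by
    show (fun z : C2 => - -z) ∈ ClassM
    simp only [neg_neg]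
    refine ⟨differentiableOn_id, rfl, (hasFDerivAt_id (𝕜 := ℂ) (0 : C2)).fderiv, ?_⟩
    intro z _ hz
    rw [inner_self_eq_norm_sq_to_K]
    have : 0 < ‖z‖ := norm_pos_iff.2 hz
    have h2 : (((‖z‖ : ℝ) : ℂ) ^ 2).re = ‖z‖ ^ 2 := by
      rw [← Complex.ofReal_pow, Complex.ofReal_re]
    show 0 < (((‖z‖ : ℝ) : ℂ) ^ 2).re
    rw [h2]
    positivity
  have hlin : ∀ g : C2 → C2, DifferentiableOn ℂ g B2 → L1 (fun z => -g z) = -L1 g := by
    intro g hd
    have e : (fun z => -g z) = (-1 : ℂ) • g + (0 : ℂ) • g := by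
      ext1 z
      simp
    rw [e, L1_functional.linear g g hd hd]
    ring
  have hval : L1 (fun z => -h z) = ((3 * Real.sqrt 3 / 2 : ℝ) : ℂ) := by
    rw [hlin h hh.cara.diff]
    have h1 := hh.q
    rw [aco_two_eq hh.cara.diff] at h1
    have h2 : L1 h = ((-(3 * Real.sqrt 3 / 2) : ℝ) : ℂ) := h1
    rw [h2]
    push_cast
    ring
  refine ⟨hmem, L1, L1_functional, ⟨_, hmem, _, hid, ?_⟩, ?_⟩
  · rw [hval, hlin (fun z => z) differentiableOn_id, L1_id, neg_zero]
    have : 0 < Real.sqrt 3 := Real.sqrt_pos.2 (by norm_num)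
    intro h0
    have h1 : (3 * Real.sqrt 3 / 2 : ℝ) = 0 := by exact_mod_cast h0
    linarith
  · intro g hg
    rw [hval, Complex.ofReal_re]
    exact L1_neg_re_le hg

/-- The properties of the support point with switching time `T`. -/
def Good (M T : ℝ) (f : C2 → C2) : Prop :=
  f ∈ ClassS0 ∧ (L1 f).re = 3 * Real.sqrt 3 / 2 ∧
  (∃ g₁ g₂ : C2 → C2, ∃ F : ℝ → C2 → C2, IsSupportPoint g₁ ClassNegM ∧
    IsSupportPoint g₂ ClassNegM ∧ IsHerglotzField (fun t => if t < T then g₁ else g₂) ∧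
    IsNormalLoewnerChain F ∧ Generates (fun t => if t < T then g₁ else g₂) F ∧
    ∀ z ∈ B2, F 0 z = f z) ∧
  ∀ G F : ℝ → C2 → C2, IsHerglotzField G → IsNormalLoewnerChain F → Generates G F →
    (∀ z ∈ B2, F 0 z = f z) →
    ∀ᵐ t : ℝ, (0 < t → G t ∈ ClassNegM) ∧ (0 < t → t < T → (mixedCoeff (G t)).re = -M) ∧
      (T < t → (mixedCoeff (G t)).re = M)

theorem exists_good : ∃ M : ℝ, 1 / 4 ≤ M ∧ ∀ T : ℝ, 0 < T → ∃ f : C2 → C2, Good M T f := by
  obtain ⟨hp, fp, hmax⟩ := exists_max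
  set M := (yc hp).re with hM
  have hM4 : 1 / 4 ≤ M := by
    have := hmax hst hst_face
    rw [hst_yc] at this
    have h2 : ((1 : ℂ) / 4).re = 1 / 4 := by norm_num
    rw [h2] at this
    exact this
  refine ⟨M, hM4, fun T hT => ?_⟩
  set hm := rot hp with hhm
  have fm : Face hm := rot_face fp
  have ym : (yc hm).re = -M := by rw [hhm, rot_yc fp.cara, Complex.neg_re]
  have hbd : ∀ h, Face h → (yc h).re ≤ M ∧ -M ≤ (yc h).re := by
    intro h hh
    refine ⟨hmax h hh, ?_⟩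
    have := hmax (rot h) (rot_face hh)
    rw [rot_yc hh.cara, Complex.neg_re] at this
    linarith
  obtain ⟨F0, hF0, g1, g2⟩ := exists_chain fp.cara fm.cara hT.le
  have hgen0 : ∀ᵐ t : ℝ, 0 < t → Face (if t < T then hp else hm) ∧
      GenAt F0 (if t < T then hp else hm) t := by
    have hne : ∀ᵐ t : ℝ, t ≠ T := by
      rw [ae_iff]
      simp
    filter_upwards [hne] with t ht ht0
    rcases lt_or_gt_of_ne ht with h | h
    · rw [if_pos h]
      exact ⟨fp, g1 t ht0 h⟩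
    · rw [if_neg (not_lt.2 h.le)]
      exact ⟨fm, g2 t h⟩
  have har : ar F0 0 = 3 * Real.sqrt 3 / 2 := level_one_eq hF0 hgen0
  have hW : Vf T M ≤ Wf T F0 0 := level_two_ge hT hF0 fp fm rfl ym
    (fun t h1 h2 => g1 t h1 h2) (fun t h => g2 t h)
  set f := F0 0 with hf
  have hfd : fderiv ℂ f 0 = ContinuousLinearMap.id ℂ C2 := by
    have := hF0.deriv 0 le_rfl
    rw [Real.exp_zero, Complex.ofReal_one, one_smul] at this
    exact this
  have hfS : f ∈ ClassS0 := ⟨hF0.holo 0 le_rfl, hF0.inj 0 le_rfl, hF0.zero 0 le_rfl, hfd,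
    F0, normal_of_lc hF0, fun z _ => rfl⟩
  refine ⟨f, hfS, har, ?_, ?_⟩
  · -- existence of a generating field
    refine ⟨fun z => -hp z, fun z => -hm z, F0, face_neg_support fp, face_neg_support fm,
      ⟨?_, ?_⟩, normal_of_lc hF0, ?_, fun z _ => rfl⟩
    · intro z _
      have h1 : Measurable (fun t : ℝ => (if t < T then (fun z => -hp z) else fun z => -hm z) z) := by
        have e : (fun t : ℝ => (if t < T then (fun z => -hp z) else fun z => -hm z) z) =
            fun t : ℝ => if t < T then -hp z else -hm z := by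
          ext1 t
          split_ifs <;> rfl
        rw [e]
        exact Measurable.ite measurableSet_Iio measurable_const measurable_const
      exact h1.aestronglyMeasurable
    · apply Eventually.of_forall
      intro t _
      split_ifs
      · exact (face_neg_support fp).1
      · exact (face_neg_support fm).1
    · intro z hz
      have hne : ∀ᵐ t : ℝ, t ≠ 0 := by
        rw [ae_iff]
        simp
      filter_upwards [hgen0, hne] with t ht ht0 ht1
      have h1 := (ht (lt_of_le_of_ne ht1 (Ne.symm ht0))).2 z hz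
      have e : (if t < T then (fun z => -hp z) else fun z => -hm z) z =
          -((if t < T then hp else hm) z) := by
        split_ifs <;> rfl
      rw [e, map_neg, neg_neg]
      exact h1
  · -- every generating field
    intro G F hG hF hgen hF0f
    have hFL := lc_of_normal hF
    set H : ℝ → C2 → C2 := fun t z => -G t z with hH
    have hHgen : ∀ᵐ t : ℝ, 0 < t → Cara (H t) ∧ GenAt F (H t) t := by
      set d : ℕ → C2 := TopologicalSpace.denseSeq C2 with hd
      have h1 : ∀ᵐ t : ℝ, ∀ k : ℕ, d k ∈ B2 → 0 ≤ t →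
          HasDerivAt (fun s => F s (d k)) (-(fderiv ℂ (F t) (d k) (G t (d k)))) t := by
        rw [ae_all_iff]
        intro k
        by_cases hk : d k ∈ B2
        · filter_upwards [hgen _ hk] with t ht _ ht0 using ht ht0
        · exact Eventually.of_forall fun t h => absurd h hk
      filter_upwards [h1, hG.mem] with t ht hGt ht0
      have hC : Cara (H t) := cara_iff.1 (hGt ht0.le)
      refine ⟨hC, ?_⟩
      apply deriv_everywhere hFL ht0 (D := range d) (TopologicalSpace.denseRange_denseSeq C2)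
        (gen_diff (hFL.holo t ht0.le) hC.diff).continuousOn
      rintro _ ⟨k, rfl⟩ hk
      have h2 := ht k hk ht0.le
      rw [hH]
      simp only
      rw [map_neg]
      exact h2
    -- level one
    have e_ar : ar F 0 = 3 * Real.sqrt 3 / 2 := by
      rw [← har, ar, ar, qf_congr hF0f norm_pt_zero_one.le]
    have hface := level_one hFL hHgen e_ar.ge
    have hgenF : ∀ᵐ t : ℝ, 0 < t → Face (H t) ∧ GenAt F (H t) t := by
      filter_upwards [hHgen, hface] with t h1 h2 ht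
      exact ⟨h2 ht, (h1 ht).2⟩
    -- level two
    have e_W : Wf T F 0 = Wf T F0 0 := by
      have k1 : gr F 0 = gr F0 0 := by
        rw [gr, gr, tc3_congr hF0f norm_pt_zero_one.le]
      have k2 : yr F 0 = yr F0 0 := by
        rw [yr, yr, mf_congr (hFL.holo 0 le_rfl) (hF0.holo 0 le_rfl) hF0f]
      rw [Wf, Wf, k1, k2]
    have key := level_two hT hFL hgenF hbd (by rw [e_W]; exact hW)
    have hmc : ∀ t, (mixedCoeff (G t)).re = -(yc (H t)).re := by
      intro t
      rw [← mixedCoeff_eq, hH]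
      simp only
      rw [mixedCoeff_neg, Complex.neg_re, neg_neg]
    filter_upwards [key, hG.mem] with t ht hGt
    refine ⟨fun h => hGt h.le, fun h1 h2 => ?_, fun h1 => ?_⟩
    · rw [hmc, ht.1 h1 h2]
    · rw [hmc, ht.2 h1, neg_neg]

/-- Close fields have close coefficients. -/
theorem sep_of_coeff {g g' : C2 → C2} (hg : g ∈ ClassNegM) (hg' : g' ∈ ClassNegM) {M : ℝ}
    (hM : 1 / 4 ≤ M) (h1 : (mixedCoeff g).re = -M) (h2 : (mixedCoeff g').re = M) :
    ∃ z : C2, ‖z‖ ≤ 1 / 2 ∧ 1 / 50 ≤ ‖g z - g' z‖ := by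
  by_contra hcon
  push Not at hcon
  have c1 : Cara (fun z => -g z) := cara_iff.1 hg
  have c2 : Cara (fun z => -g' z) := cara_iff.1 hg'
  have hclose := mf_close c1.diff c2.diff (C := 1 / 50) (fun z hz => by
    have e : -g z - -g' z = -(g z - g' z) := by abel
    rw [e, norm_neg]
    exact (hcon z hz).le)
  have hd := (re_co_sub (mf (fun z => -g z)) (mf (fun z => -g' z)) 1).trans hclose
  have hy1 : ((mf (fun z => -g z)) 1).re = M := by
    have : (yc (fun z => -g z)).re = ((mf (fun z => -g z)) 1).re := by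
      rw [yc, bco_one_eq c1.diff]
    rw [← this, ← mixedCoeff_eq, mixedCoeff_neg, Complex.neg_re, h1, neg_neg]
  have hy2 : ((mf (fun z => -g' z)) 1).re = -M := by
    have : (yc (fun z => -g' z)).re = ((mf (fun z => -g' z)) 1).re := by
      rw [yc, bco_one_eq c2.diff]
    rw [← this, ← mixedCoeff_eq, mixedCoeff_neg, Complex.neg_re, h2]
  rw [hy1, hy2, abs_of_pos (by linarith)] at hd
  linarith

theorem good_support {M T : ℝ} {f : C2 → C2} (hf : Good M T f) :
    (∃ g₁ ∈ ClassS0, ∃ g₂ ∈ ClassS0, L1 g₁ ≠ L1 g₂) ∧ ∀ g ∈ ClassS0, (L1 g).re ≤ (L1 f).re := by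
  have hidS : (fun z : C2 => z) ∈ ClassS0 := by
    refine ⟨differentiableOn_id, fun z _ w _ h => h, rfl, ?_, _, normal_of_lc trivial_chain,
      fun z _ => ?_⟩
    · exact (hasFDerivAt_id (𝕜 := ℂ) (0 : C2)).fderiv
    · simp
  refine ⟨⟨f, hf.1, _, hidS, ?_⟩, ?_⟩
  · rw [L1_id]
    intro h
    have h1 := hf.2.1
    rw [h, Complex.zero_re] at h1
    have : 0 < Real.sqrt 3 := Real.sqrt_pos.2 (by norm_num)
    linarith
  · intro g hg
    obtain ⟨-, -, -, -, F, hF, hFg⟩ := hg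
    have h1 := ar_le (lc_of_normal hF)
    have h2 : L1 g = (qf (F 0) (pt 0 1)) 0 := by
      rw [L1, qf_congr (fun z hz => (hFg z hz).symm) norm_pt_zero_one.le]
    rw [h2, hf.2.1]
    exact h1

theorem good_ne {M T T' : ℝ} {f f' : C2 → C2} (hM : 1 / 4 ≤ M) (hT : 0 < T) (hTT : T < T')
    (hf : Good M T f) (hf' : Good M T' f') : ∃ z ∈ B2, f z ≠ f' z := by
  by_contra hcon
  push Not at hcon
  obtain ⟨g₁, g₂, F, -, -, hG, hF, hgen, hF0⟩ := hf.2.2.1
  have k1 := hf.2.2.2 _ F hG hF hgen hF0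
  have k2 := hf'.2.2.2 _ F hG hF hgen (fun z hz => (hF0 z hz).trans (hcon z hz))
  have hμ : volume (Ioo T T') ≠ 0 := by
    rw [Real.volume_Ioo]
    simp [hTT]
  obtain ⟨t, ht, ⟨-, -, a1⟩, -, a2, -⟩ :=
    Measure.exists_mem_of_measure_ne_zero_of_ae hμ (ae_restrict_of_ae (k1.and k2))
  have b1 := a1 ht.1
  have b2 := a2 (hT.trans ht.1) ht.2
  linarith

theorem sep_ae {M T : ℝ} (hM : 1 / 4 ≤ M) (hT : 0 < T) {G : ℝ → C2 → C2}
    (h : ∀ᵐ t : ℝ, (0 < t → G t ∈ ClassNegM) ∧ (0 < t → t < T → (mixedCoeff (G t)).re = -M) ∧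
      (T < t → (mixedCoeff (G t)).re = M)) :
    ∀ᵐ s : ℝ, ∀ᵐ t : ℝ, 0 < s → s < T → T < t →
      ∃ z : C2, ‖z‖ ≤ 1 / 2 ∧ 1 / 50 ≤ ‖G s z - G t z‖ := by
  filter_upwards [h] with s hs
  filter_upwards [h] with t ht h1 h2 h3
  exact sep_of_coeff (hs.1 h1) (ht.1 (hT.trans h3)) hM (hs.2.1 h1 h2) (ht.2.2 h3)

theorem no_limit {T : ℝ} (hT : 0 < T) {G : ℝ → C2 → C2}
    (h : ∀ᵐ s : ℝ, ∀ᵐ t : ℝ, 0 < s → s < T → T < t →
      ∃ z : C2, ‖z‖ ≤ 1 / 2 ∧ 1 / 50 ≤ ‖G s z - G t z‖) {N : Set ℝ} (hN : volume N = 0)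
    (g : C2 → C2) : ¬ TendstoLocallyUniformlyOn G g (𝓝[Nᶜ] T) B2 := by
  intro hc
  have hcl : closedBall (0 : C2) (1 / 2) ⊆ ball 0 1 := closedBall_subset_ball (by norm_num)
  have hun := (tendstoLocallyUniformlyOn_iff_forall_isCompact isOpen_ball).1 hc _ hcl
    (isCompact_closedBall _ _)
  rw [Metric.tendstoUniformlyOn_iff] at hun
  have hev := hun (1 / 100) (by norm_num)
  rw [eventually_nhdsWithin_iff] at hev
  obtain ⟨δ, hδ, hball⟩ := Metric.eventually_nhds_iff.1 hev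
  have hNae : ∀ᵐ t : ℝ, t ∉ N := measure_eq_zero_iff_ae_notMem.1 hN
  have hμ1 : volume (Ioo (max 0 (T - δ)) T) ≠ 0 := by
    rw [Real.volume_Ioo]
    simp [hT, hδ]
  have hμ2 : volume (Ioo T (T + δ)) ≠ 0 := by
    rw [Real.volume_Ioo]
    simp [hδ]
  obtain ⟨s, hs, h1, hsN⟩ :=
    Measure.exists_mem_of_measure_ne_zero_of_ae hμ1 (ae_restrict_of_ae (h.and hNae))
  obtain ⟨t, ht, h2, htN⟩ :=
    Measure.exists_mem_of_measure_ne_zero_of_ae hμ2 (ae_restrict_of_ae (h1.and hNae))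
  have hs0 : 0 < s := (le_max_left _ _).trans_lt hs.1
  have hsδ : T - δ < s := (le_max_right _ _).trans_lt hs.1
  obtain ⟨z, hz, hge⟩ := h2 hs0 hs.2 ht.1
  have c1 := hball (y := s) (by
    rw [Real.dist_eq, abs_lt]; constructor <;> linarith [hs.2]) hsN z (by simpa using hz)
  have c2 := hball (y := t) (by
    rw [Real.dist_eq, abs_lt]; constructor <;> linarith [ht.1, ht.2]) htN z (by simpa using hz)
  rw [dist_eq_norm] at c1 c2
  have e : G s z - G t z = (g z - G t z) - (g z - G s z) := by abel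
  rw [e] at hge
  have := (norm_sub_le (g z - G t z) (g z - G s z))
  linarith

/-- **Result.**  There are a constant `M ≥ 1/4`, one continuous linear functional `L` that is not
constant on `S⁰(𝔹²)`, and for every `T > 0` a map `f T` in `S⁰(𝔹²)` that maximises `Re L` over
`S⁰(𝔹²)` (so that `f T` is a support point of `S⁰(𝔹²)`), such that

* `f T` starts a normal Loewner chain generated by a Herglotz vector field all of whose values are
  support points of `-𝓜`, which is constant on `[0, T)` and constant on `[T, ∞)`;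
* for every Herglotz vector field `G` generating a normal Loewner chain that starts at `f T`, the
  coefficient of `z₁z₂` in the second component of `G t` has real part `-M` for almost every
  `t ∈ (0, T)` and real part `M` for almost every `t > T`; the values `G s`, `G t` for almost all
  `s < T < t` differ by at least `1/50` somewhere on the ball of radius `1/2`; and `G` has no limit
  at `T` along the complement of any null set (for the topology of locally uniform convergence), so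
  that no modification of `G` on a null set is continuous at `T`;
* the maps `f T` are pairwise different. -/
theorem result : ∃ (M : ℝ) (L : (C2 → C2) → ℂ) (f : ℝ → C2 → C2),
    1 / 4 ≤ M ∧ IsContLinFunctional L ∧
    (∃ g₁ ∈ ClassS0, ∃ g₂ ∈ ClassS0, L g₁ ≠ L g₂) ∧
    (∀ T : ℝ, 0 < T →
      (f T ∈ ClassS0 ∧ (∀ g ∈ ClassS0, (L g).re ≤ (L (f T)).re) ∧
        IsSupportPoint (f T) ClassS0) ∧
      (∃ g₁ g₂ : C2 → C2, ∃ F : ℝ → C2 → C2, IsSupportPoint g₁ ClassNegM ∧
        IsSupportPoint g₂ ClassNegM ∧ IsHerglotzField (fun t => if t < T then g₁ else g₂) ∧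
        IsNormalLoewnerChain F ∧ Generates (fun t => if t < T then g₁ else g₂) F ∧
        ∀ z ∈ B2, F 0 z = f T z) ∧
      ∀ G F : ℝ → C2 → C2, IsHerglotzField G → IsNormalLoewnerChain F → Generates G F →
        (∀ z ∈ B2, F 0 z = f T z) →
        (∀ᵐ t : ℝ, (0 < t → t < T → (mixedCoeff (G t)).re = -M) ∧
          (T < t → (mixedCoeff (G t)).re = M)) ∧
        (∀ᵐ s : ℝ, ∀ᵐ t : ℝ, 0 < s → s < T → T < t →
          ∃ z : C2, ‖z‖ ≤ 1 / 2 ∧ 1 / 50 ≤ ‖G s z - G t z‖) ∧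
        (∀ N : Set ℝ, volume N = 0 → ∀ g : C2 → C2,
          ¬ TendstoLocallyUniformlyOn G g (𝓝[Nᶜ] T) B2)) ∧
    ∀ T T' : ℝ, 0 < T → 0 < T' → T ≠ T' → ∃ z ∈ B2, f T z ≠ f T' z := by
  obtain ⟨M, hM, hex⟩ := exists_good
  choose! f hf using hex
  refine ⟨M, L1, f, hM, L1_functional, (good_support (hf 1 one_pos)).1, ?_, ?_⟩
  · intro T hT
    have hg := good_support (hf T hT)
    refine ⟨⟨(hf T hT).1, hg.2, (hf T hT).1, L1, L1_functional, hg.1, hg.2⟩,
      (hf T hT).2.2.1, ?_⟩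
    intro G F hG hF hgen hF0
    have k := (hf T hT).2.2.2 G F hG hF hgen hF0
    have k2 := sep_ae hM hT k
    refine ⟨?_, k2, fun N hN g => no_limit hT k2 hN g⟩
    filter_upwards [k] with t ht using ht.2
  · intro T T' hT hT' hne
    rcases lt_or_gt_of_ne hne with h | h
    · exact good_ne hM hT h (hf T hT) (hf T' hT')
    · obtain ⟨z, hz, hz2⟩ := good_ne hM hT' h (hf T' hT') (hf T hT)
      exact ⟨z, hz, hz2.symm⟩

end Pool.Agent.Results.MP_10a7b3_an.PrescribedJump
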